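import Pool.Agent.H43.LRP

set_option autoImplicit false
open Pool.Agent.H43.LRP

namespace Pool.Agent.Results.MP_9aa340_pr.Finite

/-- Every countably infinite group has a generating measure with finite critical parameter. -/
theorem result (Γ : Type) [Group Γ] [Countable Γ] [Infinite Γ] :
    ∃ μ : PMF Γ, IsGenerating μ ∧ lamC μ < ⊤ :=
  main

end Pool.Agent.Results.MP_9aa340_pr.Finite
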